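import Pool.Agent.K3h22.EX.Stm5

/-! EX project (helper22), brick COORD: coordinates on an affine subspace in general position. -/

set_option autoImplicit false

namespace Pool.Agent.K3h10.EX

open MvPolynomial Pool.Agent.K3h22.EX

/-- coordinates on a subspace -/
theorem sub_coords (n s : ℕ) (W : Submodule ℂ (Fin n → ℂ)) (hs : Module.finrank ℂ W = s) :
    ∃ (ι : Fin s → Fin n) (E : W ≃ₗ[ℂ] (Fin s → ℂ)), Function.Injective ι ∧
      ∀ (v : W) (a : Fin s), E v a = (v : Fin n → ℂ) (ι a) := by
  classical
  subst hs
  let φ : Fin n → Module.Dual ℂ W := fun i => (LinearMap.proj i).comp W.subtype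
  have hφ : ∀ i (v : W), φ i v = (v : Fin n → ℂ) i := fun i v => rfl
  have htop : Submodule.span ℂ (Set.range φ) = ⊤ := by
    rw [eq_top_iff]
    intro g _
    obtain ⟨G, hG⟩ := LinearMap.exists_extend g
    have hg : g = ∑ i, G (Pi.single i 1) • φ i := by
      ext v
      have h1 : (v : Fin n → ℂ) = ∑ i, (v : Fin n → ℂ) i • (Pi.single i 1 : Fin n → ℂ) := by
        ext j
        simp [Finset.sum_apply, Pi.single_apply]
      have h2 : g v = G (v : Fin n → ℂ) := by rw [← hG]; rfl
      rw [h2]
      conv_lhs => rw [h1]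
      rw [map_sum, LinearMap.sum_apply]
      refine Finset.sum_congr rfl fun i _ => ?_
      rw [map_smul, LinearMap.smul_apply, hφ, smul_eq_mul, smul_eq_mul, mul_comm]
    rw [hg]
    exact Submodule.sum_mem _ fun i _ => Submodule.smul_mem _ _ (Submodule.subset_span ⟨i, rfl⟩)
  have hfin : Module.finrank ℂ (Submodule.span ℂ (Set.range φ)) = Module.finrank ℂ W := by
    rw [htop, finrank_top, Subspace.dual_finrank_eq]
  obtain ⟨f, hf, hspan, hli⟩ := Submodule.exists_fun_fin_finrank_span_eq ℂ (Set.range φ)
  replace hspan := hspan.trans htop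
  let e : Fin (Module.finrank ℂ W) ≃ Fin (Module.finrank ℂ (Submodule.span ℂ (Set.range φ))) :=
    finCongr hfin.symm
  choose ι hι using fun a => hf (e a)
  have hinj : Function.Injective ι := by
    intro a b hab
    have h1 : f (e a) = f (e b) := by rw [← hι a, ← hι b, hab]
    exact e.injective (hli.injective h1)
  let T : W →ₗ[ℂ] (Fin (Module.finrank ℂ W) → ℂ) := LinearMap.pi fun a => φ (ι a)
  have hT : Function.Injective T := by
    rw [← LinearMap.ker_eq_bot, LinearMap.ker_eq_bot']
    intro v hv
    have h1 : ∀ g ∈ Submodule.span ℂ (Set.range f), g v = 0 := by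
      intro g hg
      induction hg using Submodule.span_induction with
      | mem x hx =>
        obtain ⟨b, rfl⟩ := hx
        have h2 : f b = φ (ι (e.symm b)) := by rw [hι]; simp
        rw [h2]
        exact congrFun hv (e.symm b)
      | zero => simp
      | add x y _ _ hx hy => simp [hx, hy]
      | smul c x _ hx => simp [hx]
    ext i
    have h3 := h1 (φ i) (by rw [hspan]; trivial)
    simpa [hφ] using h3
  refine ⟨ι, T.linearEquivOfInjective hT (by simp), hinj, fun v a => ?_⟩
  rw [LinearMap.linearEquivOfInjective_apply]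
  rfl

theorem t_COORD : S_COORD := by
  classical
  intro n s V L hG hne hVL hden
  obtain ⟨hs, hreal, hrat⟩ := hG
  obtain ⟨ι, E, hinj, hE⟩ := sub_coords n s L.direction hs
  obtain ⟨u₀, hu₀⟩ := hne
  set x₀ : Fin n → ℂ := fun i => u₀ (Sum.inl i) with hx₀
  have hx₀L : x₀ ∈ L := hVL u₀ hu₀
  let w : Fin s → L.direction := fun a => E.symm (Pi.single a 1)
  have hEw : ∀ a, E (w a) = Pi.single a 1 := fun a => E.apply_symm_apply _
  have hw : ∀ v : L.direction, v = ∑ a, (v : Fin n → ℂ) (ι a) • w a := by
    intro v
    apply E.injective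
    rw [map_sum]
    ext b
    simp only [map_smul, Finset.sum_apply, Pi.smul_apply, smul_eq_mul]
    simp only [hEw]
    simp [Pi.single_apply, hE v b]
  have hwi : ∀ v : L.direction, ∀ i, (v : Fin n → ℂ) i = ∑ a, (w a : Fin n → ℂ) i * (v : Fin n → ℂ) (ι a) := by
    intro v i
    refine (congrArg (fun t : L.direction => (t : Fin n → ℂ) i) (hw v)).trans ?_
    simp [Finset.sum_apply, mul_comm]
  have hcomb : ∀ c : Fin s → ℂ, ∀ b, ((∑ a, c a • w a : L.direction) : Fin n → ℂ) (ι b) = c b := by
    intro c b
    rw [← hE, map_sum]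
    simp only [map_smul, hEw, Finset.sum_apply, Pi.smul_apply, smul_eq_mul]
    simp [Pi.single_apply]
  refine ⟨ι, fun i a => (w a : Fin n → ℂ) i, fun i => x₀ i - ∑ a, (w a : Fin n → ℂ) i * x₀ (ι a), hinj, ?_, ?_, ?_, ?_⟩
  · intro u hu i
    have h1 : (fun i => u (Sum.inl i)) - x₀ ∈ L.direction :=
      AffineSubspace.vsub_mem_direction (hVL u hu) hx₀L
    have h2 := hwi ⟨_, h1⟩ i
    simp only [Pi.sub_apply, mul_sub, Finset.sum_sub_distrib] at h2
    linear_combination h2
  · intro f hfv hf
    have hsub : (f.vars : Set (Fin n ⊕ Fin n)) ⊆ Set.range fun a => (Sum.inl (ι a) : Fin n ⊕ Fin n) := by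
      intro x hx
      have h1 := hfv hx
      simp only [coords, Finset.image_empty, Finset.union_empty, Finset.mem_image,
        Finset.mem_univ, true_and] at h1
      exact h1
    have hinj' : Function.Injective fun a => (Sum.inl (ι a) : Fin n ⊕ Fin n) := by
      intro a b hab
      exact hinj (Sum.inl_injective hab)
    obtain ⟨h, rfl⟩ := exists_rename_eq_of_vars_subset_range f _ hinj' hsub
    have h1 : ∀ x ∈ L, eval x (rename ι h) = 0 := by
      apply hden
      intro u hu
      have h2 := hf u hu
      rw [eval_rename] at h2 ⊢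
      exact h2
    have h2 : h = 0 := by
      apply MvPolynomial.funext
      intro z
      have h3 : x₀ + ((∑ a, (z a - x₀ (ι a)) • w a : L.direction) : Fin n → ℂ) ∈ L := by
        have := AffineSubspace.vadd_mem_of_mem_direction
          (∑ a, (z a - x₀ (ι a)) • w a : L.direction).2 hx₀L
        rwa [vadd_eq_add, add_comm] at this
      have h4 := h1 _ h3
      rw [eval_rename] at h4
      rw [map_zero, ← h4]
      congr 1
      congr 1
      funext b
      simp only [Function.comp_apply, Pi.add_apply]
      rw [hcomb]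
      ring
    rw [h2, map_zero]
  · intro c hc
    by_contra hne
    obtain ⟨v, hv, hv0⟩ := hreal c hne
    apply hv0
    have h1 : ∀ i, v i = ∑ a, (w a : Fin n → ℂ) i * v (ι a) := fun i => hwi ⟨v, hv⟩ i
    calc ∑ i, (c i : ℂ) * v i = ∑ i, ∑ a, (c i : ℂ) * (w a : Fin n → ℂ) i * v (ι a) := by
          refine Finset.sum_congr rfl fun i _ => ?_
          conv_lhs => rw [h1 i]
          rw [Finset.mul_sum]
          exact Finset.sum_congr rfl fun a _ => by ring
      _ = ∑ a, (∑ i, (c i : ℂ) * (w a : Fin n → ℂ) i) * v (ι a) := by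
          rw [Finset.sum_comm]
          exact Finset.sum_congr rfl fun a _ => by rw [Finset.sum_mul]
      _ = 0 := by
          refine Finset.sum_eq_zero fun a _ => ?_
          rw [hc a, zero_mul]
  · intro M hM hdet
    obtain ⟨z, hz, hMz⟩ := Matrix.exists_mulVec_eq_zero_iff.mpr hdet
    have hrank : M.rank = s := by
      have := LinearIndependent.rank_matrix (M := M) hM
      simpa using this
    have h1 := hrat M hrank ((∑ a, z a • w a : L.direction) : Fin n → ℂ)
      (∑ a, z a • w a : L.direction).2 ?_
    · apply hz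
      funext b
      rw [← hcomb z b, h1]
      rfl
    · intro a
      have h2 := congrFun hMz a
      simp only [Matrix.mulVec, dotProduct, Matrix.of_apply, Pi.zero_apply] at h2
      rw [← h2]
      simp only [Submodule.coe_sum, Submodule.coe_smul, Finset.sum_apply, Pi.smul_apply,
        smul_eq_mul, Finset.mul_sum, Finset.sum_mul]
      rw [Finset.sum_comm]
      refine Finset.sum_congr rfl fun j _ => Finset.sum_congr rfl fun i _ => by ring

end Pool.Agent.K3h10.EX
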